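import Pool.Agent.R915.O2

/-! Systems generated by pieces of motives through sums, tensor products, twists, direct summands and
tensor factors: definitions. -/

set_option autoImplicit false
set_option linter.all false

namespace Pool.Agent.U41.TF

open NumberField IsDedekindDomain Polynomial
open Pool.Agent.W401.Cheb Pool.Agent.W528.Ord Pool.Agent.R915.Ord
open MultSystem (mv IsDeg1 IsOver)

variable {K : Type} [Field K] [NumberField K] {ℓ : ℕ} [Fact ℓ.Prime] {ι : Type}

/-- Mazur's inequality: at the places `v` of degree one outside `T` the `R v` are the roots of a monic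
polynomial over the algebraic integers whose Newton polygon lies above the polygon with slopes `H`, for all
maximal ideals `Q` above `v`. -/
def Mazur (T : Finset ℕ) (R : HeightOneSpectrum (𝓞 K) → Multiset (AlgebraicClosure K)) (H : Multiset ℕ) :
    Prop :=
  ∀ v : HeightOneSpectrum (𝓞 K), IsDeg1 T v → ∀ Q : Ideal (𝓞 (AlgebraicClosure K)), IsOver Q v →
    ∃ P : Polynomial (𝓞 (AlgebraicClosure K)), LiesAbove Q (Ideal.absNorm v.asIdeal) P H ∧ rts P = R v

/-- The system with the Frobenius eigenvalues `R v` and the Hodge slopes `H` is generated by the pieces of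
the motives `A i` (the `σ`-parts, `σ` an embedding of the field of multiplications) and the Tate motive by
direct sums, tensor products, inverse twists, direct summands and *tensor factors* (Mazur's inequality holds
for the summand or factor and for the complementary summand or factor). Only the places of degree one
outside `T` are considered. -/
inductive Generated (A : ι → MotSystem K ℓ) (T : Finset ℕ) :
    (HeightOneSpectrum (𝓞 K) → Multiset (AlgebraicClosure K)) → Multiset ℕ → Prop
  | piece (x : Piece A) : Generated A T (fun v => ((A x.1).poly v x.2).roots) ((A x.1).h x.2)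
  | unit : Generated A T (fun _ => {1}) {0}
  | tate : Generated A T (fun v => {((Ideal.absNorm v.asIdeal : ℕ) : AlgebraicClosure K)}) {1}
  | sum (R R' : HeightOneSpectrum (𝓞 K) → Multiset (AlgebraicClosure K)) (H H' : Multiset ℕ)
      (h : Generated A T R H) (h' : Generated A T R' H') : Generated A T (fun v => R v + R' v) (H + H')
  | tensor (R R' : HeightOneSpectrum (𝓞 K) → Multiset (AlgebraicClosure K)) (H H' : Multiset ℕ)
      (h : Generated A T R H) (h' : Generated A T R' H') :
      Generated A T (fun v => (R v ×ˢ R' v).map fun y => y.1 * y.2) ((H ×ˢ H').map fun a => a.1 + a.2)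
  | untwist (R : HeightOneSpectrum (𝓞 K) → Multiset (AlgebraicClosure K)) (H : Multiset ℕ)
      (h : Generated A T (fun v => (R v).map fun y => ((Ideal.absNorm v.asIdeal : ℕ) : AlgebraicClosure K) * y)
        (H.map fun a => 1 + a)) : Generated A T R H
  | summand (R R' : HeightOneSpectrum (𝓞 K) → Multiset (AlgebraicClosure K)) (H H' : Multiset ℕ)
      (h : Generated A T (fun v => R v + R' v) (H + H')) (hR : Mazur T R H) (hR' : Mazur T R' H') :
      Generated A T R H
  | factor (R R' : HeightOneSpectrum (𝓞 K) → Multiset (AlgebraicClosure K)) (H H' : Multiset ℕ)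
      (h : Generated A T (fun v => (R v ×ˢ R' v).map fun y => y.1 * y.2) ((H ×ˢ H').map fun a => a.1 + a.2))
      (hR : Mazur T R H) (hR' : Mazur T R' H') (hne : H' ≠ 0) : Generated A T R H
  | congr (R R' : HeightOneSpectrum (𝓞 K) → Multiset (AlgebraicClosure K)) (H : Multiset ℕ)
      (h : Generated A T R H) (he : ∀ v : HeightOneSpectrum (𝓞 K), IsDeg1 T v → R v = R' v) :
      Generated A T R' H

/-- The Frobenius polynomials `F v₀` over the subfield `K₀` and the Hodge slopes `H` belong to a system which
is generated over `K` by the pieces of the `A i`. -/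
def IsGenerated {K₀ : Type} [Field K₀] [NumberField K₀] [Algebra K₀ K] (A : ι → MotSystem K ℓ)
    (T : Finset ℕ) (F : HeightOneSpectrum (𝓞 K₀) → ℤ[X]) (H : Multiset ℕ) : Prop :=
  ∃ R : HeightOneSpectrum (𝓞 K) → Multiset (AlgebraicClosure K), Generated A T R H ∧
    ∀ (v₀ : HeightOneSpectrum (𝓞 K₀)) (v : HeightOneSpectrum (𝓞 K)),
      v.asIdeal.comap (algebraMap (𝓞 K₀) (𝓞 K)) = v₀.asIdeal → IsDeg1 T v →
      rts ((F v₀).map (Int.castRingHom (𝓞 (AlgebraicClosure K)))) = R v

end Pool.Agent.U41.TF
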