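import Pool.Agent.U41.TF.Mult
import Pool.Agent.U41.TF.Defs
import Pool.Agent.U41.OP.Fam

/-! Systems generated by pieces are ordinary at the places where the pieces are ordinary. -/

set_option autoImplicit false
set_option linter.all false

namespace Pool.Agent.U41.TF

open NumberField IsDedekindDomain Polynomial
open Pool.Agent.W401.Cheb Pool.Agent.W528.Ord Pool.Agent.R915.Ord Pool.Agent.W850.Ord
open MultSystem (mv IsDeg1 IsOver norm_mem)

variable {K : Type} [Field K] [NumberField K] {ℓ : ℕ} [Fact ℓ.Prime] {ι : Type}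

section norms

variable {p : ℕ} [Fact p.Prime] {τ : AlgebraicClosure K →+* PadicAlgCl p}

/-- the absolute values of the eigenvalues -/
noncomputable def nrm (τ : AlgebraicClosure K →+* PadicAlgCl p) (M : Multiset (AlgebraicClosure K)) :
    Multiset ℝ := M.map fun y => ‖τ y‖

/-- the absolute values given by the slopes -/
noncomputable def sl (p : ℕ) (H : Multiset ℕ) : Multiset ℝ := H.map fun a => (1 / (p : ℝ)) ^ a

theorem nrm_mul (M M' : Multiset (AlgebraicClosure K)) :
    nrm τ ((M ×ˢ M').map fun y => y.1 * y.2) = (nrm τ M ×ˢ nrm τ M').map fun y => y.1 * y.2 := by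
  unfold nrm
  rw [Multiset.map_map]
  have e1 : ((fun y => ‖τ y‖) ∘ fun y : AlgebraicClosure K × AlgebraicClosure K => y.1 * y.2) =
      (fun z : ℝ × ℝ => z.1 * z.2) ∘ fun y => (‖τ y.1‖, ‖τ y.2‖) := by
    funext y
    simp [map_mul, norm_mul]
  rw [e1, ← Multiset.map_map, map_product (fun y => ‖τ y‖) (fun y => ‖τ y‖)]

theorem sl_mul (H H' : Multiset ℕ) :
    sl p ((H ×ˢ H').map fun a => a.1 + a.2) = (sl p H ×ˢ sl p H').map fun y => y.1 * y.2 := by
  unfold sl
  rw [Multiset.map_map]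
  have e2 : ((fun a => (1 / (p : ℝ)) ^ a) ∘ fun y : ℕ × ℕ => y.1 + y.2) =
      (fun z : ℝ × ℝ => z.1 * z.2) ∘ fun y => ((1 / (p : ℝ)) ^ y.1, (1 / (p : ℝ)) ^ y.2) := by
    funext y
    simp only [Function.comp, pow_add]
  rw [e2, ← Multiset.map_map, map_product (fun a : ℕ => (1 / (p : ℝ)) ^ a) (fun a : ℕ => (1 / (p : ℝ)) ^ a)]

theorem sl_pos (H : Multiset ℕ) (x : ℝ) (hx : x ∈ sl p H) : 0 < x := by
  obtain ⟨a, -, rfl⟩ := Multiset.mem_map.mp hx
  have hp1 : (0 : ℝ) < p := by exact_mod_cast (Fact.out : p.Prime).pos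
  positivity

/-- from Mazur's inequality -/
theorem mazur_gauss {T : Finset ℕ} {R : HeightOneSpectrum (𝓞 K) → Multiset (AlgebraicClosure K)}
    {H : Multiset ℕ} (hM : Mazur T R H) {v : HeightOneSpectrum (𝓞 K)} (hv : IsDeg1 T v)
    {Q : Ideal (𝓞 (AlgebraicClosure K))} (hQ : IsOver Q v) (hpe : Ideal.absNorm v.asIdeal = p)
    (hτ : ∀ x : 𝓞 (AlgebraicClosure K), x ∈ Q ↔ ‖τ (x : AlgebraicClosure K)‖ < 1) :
    Multiset.card (nrm τ (R v)) = Multiset.card (sl p H) ∧
    ∀ r : ℝ, 0 < r → ((nrm τ (R v)).map fun x => max r x).prod ≤ ((sl p H).map fun x => max r x).prod := by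
  obtain ⟨P, hP, hr⟩ := hM v hv Q hQ
  rw [hpe] at hP
  constructor
  · unfold nrm sl
    rw [Multiset.card_map, Multiset.card_map, ← hr]
    unfold rts
    rw [splits_iff_card_roots.mp (IsAlgClosed.splits _), hP.1.natDegree_map, hP.2.1]
  · intro r hr0
    have h := above_gauss hτ hP r hr0
    rw [hr] at h
    refine h.trans (le_of_eq ?_)
    unfold sl
    rw [Multiset.map_map]
    rfl

end norms

section gen

variable [Fintype ι] (A : ι → MotSystem K ℓ) (χ : GK K →* (PadicAlgCl ℓ)ˣ) (S : ι → Finset ℕ)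
  (hA : ∀ i, (A i).IsMotive χ (S i))

include hA in
/-- at a place where all pieces are ordinary every generated system is ordinary -/
theorem gen_norm {T : Finset ℕ} {v : HeightOneSpectrum (𝓞 K)} (hv : ∀ i, IsDeg1 (S i) v) (hvT : IsDeg1 T v)
    {Q : Ideal (𝓞 (AlgebraicClosure K))} (hQ : IsOver Q v) {p : ℕ} [Fact p.Prime]
    (hpe : Ideal.absNorm v.asIdeal = p) {τ : AlgebraicClosure K →+* PadicAlgCl p}
    (hτ : ∀ x : 𝓞 (AlgebraicClosure K), x ∈ Q ↔ ‖τ (x : AlgebraicClosure K)‖ < 1)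
    (hno : NoExcess A v Q) (R : HeightOneSpectrum (𝓞 K) → Multiset (AlgebraicClosure K)) (H : Multiset ℕ)
    (h : Generated A T R H) : nrm τ (R v) = sl p H := by
  have hp1 : (0 : ℝ) < p := by exact_mod_cast (Fact.out : p.Prime).pos
  induction h with
  | piece x =>
    have h1 := MotSystem.roots_part (hA x.1) (hv x.1) hQ hpe hτ x.2 (fun k hk => hno x.1 x.2 k hk)
    unfold sl
    rw [← h1]
    have e : (A x.1).poly v (τ.comp x.2) = ((A x.1).poly v x.2).map τ := by
      unfold MotSystem.poly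
      rw [Polynomial.map_map]
      rfl
    rw [e, Splits.roots_map (IsAlgClosed.splits _), Multiset.map_map]
    rfl
  | unit => simp [nrm, sl]
  | tate =>
    simp only [nrm, sl, Multiset.map_singleton, pow_one, map_natCast, hpe, norm_p]
  | sum R R' H H' _ _ ih ih' =>
    unfold nrm sl at *
    rw [Multiset.map_add, Multiset.map_add, ih, ih']
  | tensor R R' H H' _ _ ih ih' => rw [nrm_mul, sl_mul, ih, ih']
  | untwist R H _ ih =>
    have hinj : Function.Injective fun x : ℝ => (1 / (p : ℝ)) * x := mul_right_injective₀ (by positivity)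
    apply Multiset.map_injective hinj
    unfold nrm sl at ih ⊢
    rw [Multiset.map_map] at ih ⊢
    rw [Multiset.map_map] at ih ⊢
    have e1 : ((fun y => ‖τ y‖) ∘ fun y => ((Ideal.absNorm v.asIdeal : ℕ) : AlgebraicClosure K) * y) =
        ((fun x : ℝ => (1 / (p : ℝ)) * x) ∘ fun y => ‖τ y‖) := by
      funext y
      simp only [Function.comp, map_mul, map_natCast, norm_mul, hpe, norm_p]
    have e2 : ((fun a => (1 / (p : ℝ)) ^ a) ∘ fun a => 1 + a) =
        ((fun x : ℝ => (1 / (p : ℝ)) * x) ∘ fun a => (1 / (p : ℝ)) ^ a) := by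
      funext a
      simp only [Function.comp, pow_add, pow_one]
    rw [e1, e2] at ih
    exact ih
  | summand R R' H H' _ hR hR' ih =>
    obtain ⟨c1, g1⟩ := mazur_gauss hR hvT hQ hpe hτ
    obtain ⟨c2, g2⟩ := mazur_gauss hR' hvT hQ hpe hτ
    have hsum : nrm τ (R v) + nrm τ (R' v) = sl p H + sl p H' := by
      unfold nrm sl at *
      rw [← Multiset.map_add, ih, Multiset.map_add]
    have hpos : ∀ x ∈ nrm τ (R v), 0 < x := by
      intro x hx
      have : x ∈ sl p H + sl p H' := by rw [← hsum]; exact Multiset.mem_add.mpr (Or.inl hx)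
      rcases Multiset.mem_add.mp this with h | h
      · exact sl_pos H x h
      · exact sl_pos H' x h
    refine eq_of_gauss _ _ hpos (fun x hx => sl_pos H x hx) c1 fun r hr => ?_
    have h1 := congrArg (fun M : Multiset ℝ => (M.map fun x => max r x).prod) hsum
    simp only [Multiset.map_add, Multiset.prod_add] at h1
    have a1 := g1 r hr
    have a2 := g2 r hr
    have b1 := prod_pos (nrm τ (R v)) (fun x => max r x) (fun x _ => lt_max_of_lt_left hr)
    have b2 := prod_pos (nrm τ (R' v)) (fun x => max r x) (fun x _ => lt_max_of_lt_left hr)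
    by_contra hne
    have h2 := lt_of_le_of_ne a1 hne
    have h3 := mul_lt_mul h2 a2 b2 (b1.le.trans a1)
    linarith
  | factor R R' H H' _ hR hR' hne ih =>
    obtain ⟨c1, g1⟩ := mazur_gauss hR hvT hQ hpe hτ
    obtain ⟨c2, g2⟩ := mazur_gauss hR' hvT hQ hpe hτ
    rw [nrm_mul, sl_mul] at ih
    have hne' : sl p H' ≠ 0 := by
      intro h0
      apply hne
      unfold sl at h0
      rwa [Multiset.map_eq_zero] at h0
    have hpos : ∀ x ∈ nrm τ (R v), 0 < x := by
      intro x hx
      have hx0 : 0 ≤ x := by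
        obtain ⟨y, -, rfl⟩ := Multiset.mem_map.mp hx
        exact norm_nonneg _
      rcases hx0.lt_or_eq with h | h
      · exact h
      · exfalso
        have hne2 : nrm τ (R' v) ≠ 0 := by
          intro h0
          rw [h0, Multiset.card_zero] at c2
          exact hne' (Multiset.card_eq_zero.mp c2.symm)
        obtain ⟨y, hy⟩ := Multiset.exists_mem_of_ne_zero hne2
        have hm : (x * y) ∈ (sl p H ×ˢ sl p H').map fun y => y.1 * y.2 := by
          rw [← ih]
          exact Multiset.mem_map.mpr ⟨(x, y), Multiset.mem_product.mpr ⟨hx, hy⟩, rfl⟩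
        obtain ⟨⟨a, b⟩, hab, he⟩ := Multiset.mem_map.mp hm
        rw [Multiset.mem_product] at hab
        have := mul_pos (sl_pos H a hab.1) (sl_pos H' b hab.2)
        simp only at he
        rw [he, ← h, zero_mul] at this
        exact lt_irrefl _ this
    exact eq_of_gauss _ _ hpos (fun x hx => sl_pos H x hx) c1 fun r hr =>
      factor_max _ _ _ _ hpos (fun x hx => sl_pos H x hx) (fun x hx => sl_pos H' x hx) c1 c2 g1 g2 hne' ih r hr
  | congr R R' H _ he ih => rw [← he v hvT]; exact ih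

end gen

section down

variable {K₀ : Type} [Field K₀] [NumberField K₀] [Algebra K₀ K] [Fintype ι]
    (A : ι → MotSystem K ℓ) (χ : GK K →* (PadicAlgCl ℓ)ˣ) (S : ι → Finset ℕ)
    (hA : ∀ i, (A i).IsMotive χ (S i))

include hA in
/-- generated systems over `K₀` are ordinary below the good places -/
theorem newton_of_gen {T : Finset ℕ} {F : HeightOneSpectrum (𝓞 K₀) → ℤ[X]} {H : Multiset ℕ}
    (hF : IsGenerated A T F H) (v₀ : HeightOneSpectrum (𝓞 K₀)) (v : HeightOneSpectrum (𝓞 K))
    (h0 : v.asIdeal.comap (algebraMap (𝓞 K₀) (𝓞 K)) = v₀.asIdeal) (hv : Good A S v)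
    (hvT : Ideal.absNorm v.asIdeal ∉ T) :
    NewtonSlopes (Ideal.absNorm v₀.asIdeal) (F v₀) H := by
  obtain ⟨hv1, hvS, Q, hQ, hno⟩ := hv
  obtain ⟨R, hR, he⟩ := hF
  have hdeg : IsDeg1 T v := ⟨hv1, hvT⟩
  rw [under_norm v hv1 v₀ h0]
  obtain ⟨p, hpe⟩ : ∃ p, Ideal.absNorm v.asIdeal = p := ⟨_, rfl⟩
  have hpp : p.Prime := hpe ▸ hv1
  haveI : Fact p.Prime := ⟨hpp⟩
  have hpQ := norm_mem hv1 hQ.2
  rw [hpe] at hpQ ⊢
  obtain ⟨τ, hτ⟩ := exists_tau (p := p) Q hQ.1 hpQ
  have key := gen_norm A χ S hA (fun i => ⟨hv1, hvS i⟩) hdeg hQ hpe hτ hno R H hR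
  rw [← he v₀ v h0 hdeg] at key
  refine ⟨inferInstance, ?_⟩
  unfold nrm sl at key
  rw [← key]
  have e : (F v₀).map (Int.castRingHom (PadicAlgCl p)) =
      ((((F v₀).map (Int.castRingHom (𝓞 (AlgebraicClosure K)))).map
        (algebraMap (𝓞 (AlgebraicClosure K)) (AlgebraicClosure K)))).map τ := by
    rw [Polynomial.map_map, Polynomial.map_map]
    congr 1
    exact (RingHom.ext_int _ _)
  rw [e, Splits.roots_map (IsAlgClosed.splits _), Multiset.map_map]
  rfl

end down

end Pool.Agent.U41.TF
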