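import Pool.Agent.R915.O1

/-! Tensor factors: the lemma on multisets of positive numbers. -/

set_option autoImplicit false
set_option linter.all false

namespace Pool.Agent.U41.TF

theorem prod_product (M M' : Multiset ℝ) (r : ℝ) :
    (((M ×ˢ M').map fun y => y.1 * y.2).map fun x => max r x).prod =
      (M.map fun x => (M'.map fun y => max r (x * y)).prod).prod := by
  induction M using Multiset.induction_on with
  | empty => simp
  | cons a M ih =>
    rw [Multiset.cons_product, Multiset.map_add, Multiset.map_add, Multiset.prod_add, ih,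
      Multiset.map_cons, Multiset.prod_cons, Multiset.map_map, Multiset.map_map]
    rfl

theorem inner_eq (M : Multiset ℝ) (x r : ℝ) (hx : 0 < x) :
    (M.map fun y => max r (x * y)).prod = x ^ Multiset.card M * (M.map fun y => max (r / x) y).prod := by
  induction M using Multiset.induction_on with
  | empty => simp
  | cons a M ih =>
    rw [Multiset.map_cons, Multiset.prod_cons, ih, Multiset.map_cons, Multiset.prod_cons,
      Multiset.card_cons, pow_succ]
    have e : max r (x * a) = x * max (r / x) a := by
      rw [mul_max_of_nonneg _ _ hx.le, mul_div_cancel₀ _ hx.ne']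
    rw [e]
    ring

theorem prod_pos {α : Type*} (M : Multiset α) (f : α → ℝ) (hf : ∀ x ∈ M, 0 < f x) : 0 < (M.map f).prod := by
  induction M using Multiset.induction_on with
  | empty => simp
  | cons a M ih =>
    rw [Multiset.map_cons, Multiset.prod_cons]
    exact mul_pos (hf a (Multiset.mem_cons_self a M)) (ih fun x hx => hf x (Multiset.mem_cons_of_mem hx))

theorem prod_le {α : Type*} (M : Multiset α) (f g : α → ℝ) (hf : ∀ x ∈ M, 0 < f x)
    (h : ∀ x ∈ M, f x ≤ g x) : (M.map f).prod ≤ (M.map g).prod := by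
  induction M using Multiset.induction_on with
  | empty => simp
  | cons a M ih =>
    rw [Multiset.map_cons, Multiset.prod_cons, Multiset.map_cons, Multiset.prod_cons]
    have h1 := h a (Multiset.mem_cons_self a M)
    have h2 := ih (fun x hx => hf x (Multiset.mem_cons_of_mem hx)) (fun x hx => h x (Multiset.mem_cons_of_mem hx))
    have h3 := hf a (Multiset.mem_cons_self a M)
    exact mul_le_mul h1 h2 (prod_pos M f fun x hx => hf x (Multiset.mem_cons_of_mem hx)).le (h3.le.trans h1)

theorem eq_of_prod_eq {α : Type*} (M : Multiset α) (f g : α → ℝ) (hf : ∀ x ∈ M, 0 < f x)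
    (h : ∀ x ∈ M, f x ≤ g x) (he : (M.map g).prod ≤ (M.map f).prod) (x : α) (hx : x ∈ M) : f x = g x := by
  classical
  obtain ⟨M', rfl⟩ := Multiset.exists_cons_of_mem hx
  rw [Multiset.map_cons, Multiset.prod_cons, Multiset.map_cons, Multiset.prod_cons] at he
  have h1 := h x hx
  have h2 := prod_le M' f g (fun y hy => hf y (Multiset.mem_cons_of_mem hy))
    (fun y hy => h y (Multiset.mem_cons_of_mem hy))
  have h3 := prod_pos M' f (fun y hy => hf y (Multiset.mem_cons_of_mem hy))
  have h4 := hf x hx
  by_contra hne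
  have h5 : f x < g x := lt_of_le_of_ne h1 hne
  have h6 : f x * (M'.map f).prod < g x * (M'.map g).prod :=
    mul_lt_mul h5 h2 h3 (h4.le.trans h1)
  linarith

/-- **the key lemma**: if `N` and `N'` lie above `Z` and `Z'`, and the products agree, then `N` has the same
Gauss norms as `Z`. -/
theorem factor_max (N N' Z Z' : Multiset ℝ) (hN : ∀ x ∈ N, 0 < x) (hZ : ∀ x ∈ Z, 0 < x)
    (hZ' : ∀ x ∈ Z', 0 < x) (hc : Multiset.card N = Multiset.card Z)
    (hc' : Multiset.card N' = Multiset.card Z')
    (h1 : ∀ r : ℝ, 0 < r → (N.map fun x => max r x).prod ≤ (Z.map fun x => max r x).prod)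
    (h2 : ∀ r : ℝ, 0 < r → (N'.map fun x => max r x).prod ≤ (Z'.map fun x => max r x).prod)
    (hne : Z' ≠ 0)
    (he : ((N ×ˢ N').map fun y => y.1 * y.2) = (Z ×ˢ Z').map fun y => y.1 * y.2) (s : ℝ) (hs : 0 < s) :
    (N.map fun x => max s x).prod = (Z.map fun x => max s x).prod := by
  obtain ⟨z, hz⟩ := Multiset.exists_mem_of_ne_zero hne
  have hz0 := hZ' z hz
  set r : ℝ := s * z with hr
  have hr0 : 0 < r := mul_pos hs hz0
  have hrz : r / z = s := by rw [hr]; exact mul_div_cancel_right₀ _ hz0.ne'
  -- the chain of inequalities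
  have e1 := prod_product N N' r
  have e2 := prod_product Z Z' r
  rw [he, e2] at e1
  have a1 : (N.map fun x => (N'.map fun y => max r (x * y)).prod).prod ≤
      (N.map fun x => (Z'.map fun y => max r (x * y)).prod).prod := by
    apply prod_le
    · intro x _
      exact prod_pos _ _ fun y _ => lt_max_of_lt_left hr0
    · intro x hx
      rw [inner_eq N' x r (hN x hx), inner_eq Z' x r (hN x hx), hc']
      exact mul_le_mul_of_nonneg_left (h2 _ (div_pos hr0 (hN x hx))) (pow_nonneg (hN x hx).le _)
  have a2 : (N.map fun x => (Z'.map fun y => max r (x * y)).prod).prod =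
      (Z'.map fun y => (N.map fun x => max r (y * x)).prod).prod := by
    rw [Multiset.prod_map_prod_map]
    simp only [mul_comm]
  have a3 : (Z.map fun x => (Z'.map fun y => max r (x * y)).prod).prod =
      (Z'.map fun y => (Z.map fun x => max r (y * x)).prod).prod := by
    rw [Multiset.prod_map_prod_map]
    simp only [mul_comm]
  have a4 := eq_of_prod_eq Z' (fun y => (N.map fun x => max r (y * x)).prod)
    (fun y => (Z.map fun x => max r (y * x)).prod)
    (fun y _ => prod_pos _ _ fun x _ => lt_max_of_lt_left hr0)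
    (fun y hy => by
      show (N.map fun x => max r (y * x)).prod ≤ (Z.map fun x => max r (y * x)).prod
      rw [inner_eq N y r (hZ' y hy), inner_eq Z y r (hZ' y hy), hc]
      exact mul_le_mul_of_nonneg_left (h1 _ (div_pos hr0 (hZ' y hy))) (pow_nonneg (hZ' y hy).le _))
    (by rw [← a3, ← a2, e1]; exact a1) z hz
  rw [inner_eq N z r hz0, inner_eq Z z r hz0, hc, hrz] at a4
  exact mul_left_cancel₀ (pow_pos hz0 _).ne' a4

/-- a multiset of positive numbers is determined by its Gauss norms -/
theorem eq_of_gauss (N Z : Multiset ℝ) (hN : ∀ x ∈ N, 0 < x) (hZ : ∀ x ∈ Z, 0 < x)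
    (hc : Multiset.card N = Multiset.card Z)
    (h : ∀ r : ℝ, 0 < r → (N.map fun x => max r x).prod = (Z.map fun x => max r x).prod) : N = Z := by
  obtain ⟨r1, hr1, h3⟩ := Pool.Agent.W528.Ord.exists_lower _ hN
  obtain ⟨r2, hr2, h4⟩ := Pool.Agent.W528.Ord.exists_lower _ hZ
  exact Pool.Agent.W518.DN.eq_of_prod_max (min r1 r2) (lt_min hr1 hr2) (Multiset.card N) _ _ rfl
    hc.symm (fun x hx => (min_le_left _ _).trans (h3 x hx))
    (fun x hx => (min_le_right _ _).trans (h4 x hx)) fun r hr => h r (lt_of_lt_of_le (lt_min hr1 hr2) hr)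

end Pool.Agent.U41.TF
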